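import Mathlib

/-!
# AF, step (5): no invariant set can hide

A skew product `F (θ, z) = (R θ, S θ z)` over an ergodic map with measure preserving fibre maps. If the growth `G n` at the times
`n = nk k` is at least `rr k θ` on every fibre outside a set of measure `dl k → 0`, and the mean of `rr k` is at least `κ * nk k`,
then the exponent is at least `κ` almost everywhere on the whole space: an invariant set has fibres of constant measure.
-/

set_option autoImplicit false

open MeasureTheory Filter Topology Set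

namespace Pool.Agent.Helper18.AF

variable {X Z : Type*} [MeasurableSpace X] [MeasurableSpace Z] {ν : Measure X} {μ : Measure Z}
  [IsProbabilityMeasure ν] [IsProbabilityMeasure μ]

omit [IsProbabilityMeasure ν] in
/-- the fibre measure of an invariant set is constant -/
theorem fibre_const {R : X → X} (hR : Ergodic R ν) {S : X → Z → Z} (hS : ∀ θ, MeasurePreserving (S θ) μ μ)
    {B : Set (X × Z)} (hB : MeasurableSet B)
    (hinv : ∀ᵐ p ∂(ν.prod μ), (R p.1, S p.1 p.2) ∈ B ↔ p ∈ B) :
    ∃ β : ENNReal, ∀ᵐ θ ∂ν, μ (Prod.mk θ ⁻¹' B) = β := by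
  have hm : Measurable fun θ => μ (Prod.mk θ ⁻¹' B) := measurable_measure_prodMk_left hB
  have hc : (fun θ => μ (Prod.mk θ ⁻¹' B)) ∘ R =ᵐ[ν] fun θ => μ (Prod.mk θ ⁻¹' B) := by
    have h1 := Measure.ae_ae_of_ae_prod hinv
    filter_upwards [h1] with θ hθ
    simp only [Function.comp]
    have h2 : μ (Prod.mk (R θ) ⁻¹' B) = μ (S θ ⁻¹' (Prod.mk (R θ) ⁻¹' B)) :=
      ((hS θ).measure_preimage (measurable_prodMk_left hB).nullMeasurableSet).symm
    rw [h2]
    refine measure_congr ?_
    filter_upwards [hθ] with z hz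
    exact propext hz
  obtain ⟨β, hβ⟩ := hR.quasiErgodic.ae_eq_const_of_ae_eq_comp₀ hm.nullMeasurable hc
  exact ⟨β, hβ⟩

theorem main {R : X → X} (hR : Ergodic R ν) {S : X → Z → Z} (hS : ∀ θ, MeasurePreserving (S θ) μ μ)
    {lam : X × Z → ℝ} (hlam : Measurable lam) (hinv : ∀ᵐ p ∂(ν.prod μ), lam (R p.1, S p.1 p.2) = lam p)
    {G : ℕ → X × Z → ℝ} (hG : ∀ n, Measurable (G n)) {C : ℝ} (hGC : ∀ n p, |G n p| ≤ C) (hG0 : ∀ n p, 0 ≤ G n p)
    (hlim : ∀ᵐ p ∂(ν.prod μ), Tendsto (fun n => G n p) atTop (𝓝 (lam p)))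
    {rr : ℕ → X → ℝ} (hrm : ∀ k, Measurable (rr k)) (hr0 : ∀ k θ, 0 ≤ rr k θ) {Cr : ℝ} (hrC : ∀ k θ, rr k θ ≤ Cr) {dl : ℕ → ℝ}
    (hdl : Tendsto dl atTop (𝓝 0)) (hdl0 : ∀ k, 0 ≤ dl k)
    (hbad : ∀ k, ∀ᵐ θ ∂ν, μ {z | G k (θ, z) < rr k θ} ≤ ENNReal.ofReal (dl k)) {κ : ℝ}
    (hint : ∀ᶠ k in atTop, κ ≤ ∫ θ, rr k θ ∂ν) :
    ∀ᵐ p ∂(ν.prod μ), κ ≤ lam p := by
  -- it suffices to consider all rational numbers below `κ`
  suffices h : ∀ c < κ, ∀ᵐ p ∂(ν.prod μ), c ≤ lam p by
    have h1 : ∀ᵐ p ∂(ν.prod μ), ∀ n : ℕ, κ - 1 / ((n : ℝ) + 1) ≤ lam p := by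
      rw [ae_all_iff]
      intro n
      refine h _ ?_
      have : (0 : ℝ) < 1 / ((n : ℝ) + 1) := by positivity
      linarith
    filter_upwards [h1] with p hp
    refine le_of_tendsto' (f := fun n : ℕ => κ - 1 / ((n : ℝ) + 1)) (x := atTop) ?_ hp
    have := (tendsto_one_div_add_atTop_nhds_zero_nat (𝕜 := ℝ)).const_sub κ
    simpa using this
  intro c hc
  by_contra hcon
  obtain ⟨B, hBd⟩ : ∃ B : Set (X × Z), B = {p | lam p < c} := ⟨_, rfl⟩
  have hB : MeasurableSet B := by
    rw [hBd]
    exact measurableSet_lt hlam measurable_const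
  have hBinv : ∀ᵐ p ∂(ν.prod μ), (R p.1, S p.1 p.2) ∈ B ↔ p ∈ B := by
    filter_upwards [hinv] with p hp
    rw [hBd]
    show lam (R p.1, S p.1 p.2) < c ↔ lam p < c
    rw [hp]
  obtain ⟨β, hβ⟩ := fibre_const hR hS hB hBinv
  have hvol : (ν.prod μ) B = β := by
    rw [Measure.prod_apply hB, lintegral_congr_ae hβ, lintegral_const, measure_univ, mul_one]
  have hβpos : β ≠ 0 := by
    intro h0
    apply hcon
    rw [h0] at hvol
    have h1 : ∀ᵐ p ∂(ν.prod μ), p ∉ B := by
      rw [ae_iff]
      simpa using hvol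
    filter_upwards [h1] with p hp
    rw [hBd] at hp
    simpa using hp
  have hβ1 : β ≤ 1 := by
    rw [← hvol]
    exact prob_le_one
  have hβtop : β ≠ ⊤ := ne_top_of_le_ne_top ENNReal.one_ne_top hβ1
  obtain ⟨b, hb⟩ : ∃ b : ℝ, b = β.toReal := ⟨_, rfl⟩
  have hb0 : 0 < b := by
    rw [hb]
    exact ENNReal.toReal_pos hβpos hβtop
  have hC0 : 0 ≤ C := by
    obtain ⟨p⟩ := nonempty_of_isProbabilityMeasure (ν.prod μ)
    exact (abs_nonneg _).trans (hGC 0 p)
  have hGi : ∀ n, Integrable (G n) (ν.prod μ) := fun n =>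
    Integrable.of_bound (hG n).aestronglyMeasurable C (Eventually.of_forall fun p => by rw [Real.norm_eq_abs]; exact hGC n p)
  -- the integrals over `B`
  have hconv : Tendsto (fun n => ∫ p in B, G n p ∂(ν.prod μ)) atTop (𝓝 (∫ p in B, lam p ∂(ν.prod μ))) :=
    tendsto_integral_of_dominated_convergence (fun _ => C) (fun n => (hG n).aestronglyMeasurable)
      (integrable_const _) (fun n => Eventually.of_forall fun p => by rw [Real.norm_eq_abs]; exact hGC n p)
      (ae_restrict_of_ae hlim)
  have hlamC : ∀ᵐ p ∂(ν.prod μ), |lam p| ≤ C := by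
    filter_upwards [hlim] with p hp
    exact le_of_tendsto' hp.abs fun n => hGC n p
  have hlami : Integrable lam (ν.prod μ) :=
    Integrable.of_bound hlam.aestronglyMeasurable C (by
      filter_upwards [hlamC] with p hp
      rwa [Real.norm_eq_abs])
  have hup : ∫ p in B, lam p ∂(ν.prod μ) ≤ c * b := by
    have h1 : ∫ p in B, lam p ∂(ν.prod μ) ≤ ∫ _ in B, c ∂(ν.prod μ) := by
      refine setIntegral_mono_on hlami.integrableOn (integrable_const _) hB fun p hp => ?_
      rw [hBd] at hp
      exact le_of_lt hp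
    rw [setIntegral_const, smul_eq_mul, Measure.real, hvol, ← hb] at h1
    linarith
  have hlow : ∀ k, dl k ≤ b → (b - dl k) * ∫ θ, rr k θ ∂ν ≤ ∫ p in B, G k p ∂(ν.prod μ) := by
    intro k hk
    rw [← integral_indicator hB, integral_prod _ ((hGi k).indicator hB), ← integral_const_mul]
    have hri : Integrable (rr k) ν := Integrable.of_bound (hrm k).aestronglyMeasurable Cr (Eventually.of_forall fun θ => by
      rw [Real.norm_eq_abs, abs_of_nonneg (hr0 k θ)]
      exact hrC k θ)
    refine integral_mono_ae (hri.const_mul _) ((hGi k).indicator hB).integral_prod_left ?_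
    filter_upwards [hβ, hbad k] with θ hθ hθb
    -- one fibre
    obtain ⟨E, hE⟩ : ∃ E : Set Z, E = Prod.mk θ ⁻¹' B \ {z | G k (θ, z) < rr k θ} := ⟨_, rfl⟩
    have hEm : MeasurableSet E := by
      rw [hE]
      exact (measurable_prodMk_left hB).diff (measurableSet_lt ((hG k).comp measurable_prodMk_left) measurable_const)
    have hEv : b - dl k ≤ μ.real E := by
      have h1 : β ≤ μ E + ENNReal.ofReal (dl k) := by
        rw [← hθ, hE]
        calc μ (Prod.mk θ ⁻¹' B) ≤ μ ((Prod.mk θ ⁻¹' B \ {z | G k (θ, z) < rr k θ}) ∪ {z | G k (θ, z) < rr k θ}) :=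
              measure_mono (by
                intro z hz
                by_cases h : G k (θ, z) < rr k θ
                · exact Or.inr h
                · exact Or.inl ⟨hz, h⟩)
          _ ≤ _ := measure_union_le _ _
          _ ≤ _ := by gcongr
      have h2 := ENNReal.toReal_mono (by
        refine ENNReal.add_ne_top.2 ⟨measure_ne_top _ _, ENNReal.ofReal_ne_top⟩) h1
      rw [ENNReal.toReal_add (measure_ne_top _ _) ENNReal.ofReal_ne_top, ENNReal.toReal_ofReal (hdl0 k), ← hb] at h2
      have h3 : μ.real E = (μ E).toReal := rfl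
      linarith
    have hgi : Integrable (fun z => B.indicator (G k) (θ, z)) μ := by
      refine Integrable.of_bound (((hG k).indicator hB).comp measurable_prodMk_left).aestronglyMeasurable C
        (Eventually.of_forall fun z => ?_)
      rw [Real.norm_eq_abs]
      by_cases h : (θ, z) ∈ B
      · rw [indicator_of_mem h]
        exact hGC k _
      · rw [indicator_of_notMem h, abs_zero]
        exact hC0
    have h4 : ∫ z, E.indicator (fun _ => rr k θ) z ∂μ ≤ ∫ z, B.indicator (G k) (θ, z) ∂μ := by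
      refine integral_mono ((integrable_const _).indicator hEm) hgi fun z => ?_
      show E.indicator (fun _ => rr k θ) z ≤ B.indicator (G k) (θ, z)
      by_cases h : z ∈ E
      · rw [indicator_of_mem h]
        rw [hE] at h
        have h5 : (θ, z) ∈ B := h.1
        rw [indicator_of_mem h5]
        exact not_lt.1 h.2
      · rw [indicator_of_notMem h]
        by_cases h5 : (θ, z) ∈ B
        · rw [indicator_of_mem h5]
          exact hG0 k _
        · rw [indicator_of_notMem h5]
    rw [integral_indicator hEm, setIntegral_const, smul_eq_mul] at h4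
    refine le_trans ?_ h4
    exact mul_le_mul_of_nonneg_right hEv (hr0 k θ)
  have hfin : Tendsto (fun k => (b - dl k) * κ) atTop (𝓝 ((b - 0) * κ)) := (hdl.const_sub b).mul_const κ
  rw [sub_zero] at hfin
  have hle : b * κ ≤ c * b := by
    refine le_trans (le_of_tendsto_of_tendsto hfin hconv ?_) hup
    filter_upwards [hint, hdl.eventually (gt_mem_nhds hb0)] with k hk1 hk2
    exact (mul_le_mul_of_nonneg_left hk1 (by linarith)).trans (hlow k hk2.le)
  have : κ ≤ c := by
    have h1 : b * κ ≤ b * c := by linarith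
    exact le_of_mul_le_mul_left h1 hb0
  linarith

end Pool.Agent.Helper18.AF
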