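import Pool.Agent.Helper18.AF.NumS
import Pool.Agent.Helper33.AF.Conc
import Pool.Agent.Helper4.AF.Meas
import Pool.Agent.Helper10.AF.Amp
import Pool.Agent.Helper82.AN.Eta

/-!
# AF, block LPS: the level step for one parameter
-/

set_option autoImplicit false
open MeasureTheory Real Set Filter Topology
open scoped ENNReal

namespace Pool.Agent.Helper18.AF

open Pool.Agent.Helper95.AF
open Pool.Agent.Helper18.UC (nn LL sqo rep toT)
open Pool.Agent.Helper46.QP (TT Td)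
open Pool.Agent.Helper82.AN (Ik Ow lawL wt bas eta Hw sq SepR eta_meas)

/-- the statement of the block E1 -/
def LevExp : Prop := ∃ C : ℝ, 1 ≤ C ∧ ∀ (d : ℕ) (γ : ℝ) (k : ℕ) (e : Fin k → Td d → ℝ) (U : Fin (k + 1) → ℝ) (α : Td d)
    (r₀ a ρ δ cap ρ' δ' cap' y p Q : ℝ) (n J M N P : ℕ) (β : Fin M → Td d), 0 < γ → (∀ i, Continuous (e i)) → U 0 ≠ 0 →
    0 < r₀ → SepR α r₀ (J * (n + 5)) M β → 1 ≤ N → 1 ≤ P →
    2 * ((M * (J * (n + 5)) : ℕ) : ℝ) ≤ (2 * N * r₀) ^ (2 * P) → 1 ≤ |a| → 0 < ρ → ρ ≤ 1 → 0 < ρ' → ρ' ≤ 1 → 0 < δ →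
    0 < δ' → 0 < p → p ≤ 1 / 4 → 0 ≤ cap → J * cap ≤ cap' → δ ≤ Real.exp (-(p * cap)) → 0 ≤ y → 0 ≤ Q →
    ρ / (10 * (|a| + 1)) ^ 5 ≤ |U 0| * Real.exp (-((P * N : ℝ) ^ γ)) / 20 →
    ∫⁻ w, ∏ l, (1 + ENNReal.ofReal Q * (Bs a ρ δ cap ρ' δ' cap' n J y).indicator 1 (sq α (frc γ e U w) (β l))) ∂lawL d ≤
      (ENNReal.ofReal (Real.exp J * (1 + Q * (4 / (δ' * ρ' ^ 2)) * Real.exp (-(p * y)) *
        (C * (|a| + 1) ^ 26 * (C / ρ) ^ (12 * p)) ^ J))) ^ M

variable {d : ℕ}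

theorem meas_sq {α : Td d} {γ : ℝ} {k : ℕ} {e : Fin k → Td d → ℝ} {U : Fin (k + 1) → ℝ} (he : ∀ i, Continuous (e i)) :
    Measurable fun p : Ow d × Td d => sq α (frc γ e U p.1) p.2 := by
  refine measurable_pi_iff.2 fun j => ?_
  unfold Pool.Agent.Helper82.AN.sq frc
  have h1 : Measurable fun p : Ow d × Td d => (p.1, p.2 + j • α) :=
    measurable_fst.prodMk (measurable_snd.add_const _)
  have h2 : Measurable fun p : Ow d × Td d => eta γ p.1 (p.2 + j • α) := (eta_meas γ).comp h1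
  have h3 : ∀ i : Fin k, Measurable fun p : Ow d × Td d => U i.succ * e i (p.2 + j • α) := fun i =>
    ((he i).measurable.comp (measurable_snd.add_const _)).const_mul _
  exact (Finset.measurable_sum _ fun i _ => h3 i).add (h2.const_mul _)

theorem meas_Rl (a L : ℝ) (hL : 0 ≤ L) (i n : ℕ) : Measurable (Rl a L i n) :=
  Pool.Agent.Helper4.AF.rr_meas a n (by positivity) (Real.exp_pos _).le

theorem meas_shb (m : ℕ) : Measurable fun b : ℕ → ℝ => shb b m :=
  measurable_pi_iff.2 fun j => measurable_pi_apply (j + m)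

theorem meas_EvS (a L : ℝ) (hL : 0 ≤ L) (i n J : ℕ) (y : ℝ) : MeasurableSet (EvS a L i n J y) := by
  unfold EvS
  refine measurableSet_lt (meas_Rl a L hL _ _) ?_
  refine ((Finset.measurable_sum _ fun j _ => ?_).sub_const _).sub_const _
  exact (meas_Rl a L hL i n).comp (meas_shb _)

theorem lev_probS_of (hE : LevExp) {γ τ x : ℝ} (hd : 0 < d) (hγ : 0 < γ) (h1 : 1 / d ≤ τ) (h2 : τ * γ < x) (hx : x < 1)
    (G : ℝ) (hG : 1 ≤ G) :
    ∃ (c : ℝ) (K : ℕ → ℝ), (∀ i : ℕ, K i ≤ Real.exp (c * ((i : ℝ) + 1) ^ 2)) ∧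
      ∀ D : ℝ, 0 < D → ∃ L₀ : ℝ, 1 ≤ L₀ ∧ ∀ L : ℝ, L₀ ≤ L → ∀ (i n J : ℕ), 1 ≤ J → K i ≤ n →
      K i * ((J * (n + 5) : ℕ) : ℝ) ^ x ≤ n →
      ∀ (k : ℕ) (e : Fin k → Td d → ℝ) (U : Fin (k + 1) → ℝ) (a : ℝ) (α : Td d) (y : ℝ), (∀ i, Continuous (e i)) →
        Real.exp L ≤ |a| → |a| ≤ Real.exp (L + 1) → Real.exp (-((L + 1) / 4000)) ≤ |U 0| → DC D τ α →
        -(et i / 2 * (J * (n + 5) : ℕ) * L) ≤ y →
        lawL d {w | et (i + 1) ≤ volume.real {θ : Td d | sq α (frc γ e U w) θ ∈ EvS a L i n J y}} ≤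
          ENNReal.ofReal (Real.exp (-(G * (J * (n + 5) : ℕ) * L))) := by
  obtain ⟨C, hC, hE⟩ := hE
  have hdR : (0 : ℝ) < d := by exact_mod_cast hd
  have hτ : 0 < τ := lt_of_lt_of_le (by positivity) h1
  have hx0 : 0 < x := lt_trans (by positivity) h2
  have hlC : 0 ≤ Real.log C := Real.log_nonneg hC
  obtain ⟨C₀, hC₀⟩ : ∃ C₀ : ℝ, C₀ = 100 * (200 + 20 * Real.log C) + 41 * G + 100 := ⟨_, rfl⟩
  have hC₀1 : 1 ≤ C₀ := by linarith
  obtain ⟨c, hc⟩ := thr C₀ hC₀1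
  refine ⟨c, fun i => C₀ * uu i ^ 2, hc, fun D hD => ?_⟩
  obtain ⟨CA, hCA, hamp⟩ := Pool.Agent.Helper10.AF.amp_ok (x := x) hd hγ h1 h2 D hD
  refine ⟨CA, hCA, fun L hLL i n J hJ hKn hKx k e U a α y he ha1 ha2 hU hα hy => ?_⟩
  have hL1 : 1 ≤ L := hCA.trans hLL
  obtain ⟨N, hN⟩ : ∃ N : ℕ, N = J * (n + 5) := ⟨_, rfl⟩
  have hu := one_le_uu i
  have hu2 : uu i ≤ uu i ^ 2 := by nlinarith
  have hum := uu_mul i
  have p1 := pp_pos i
  have p2 := et_pos i
  have p3 := et_pos (i + 1)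
  have p4 := pp_pos (i + 1)
  have hn0 : (0 : ℝ) ≤ n := Nat.cast_nonneg n
  -- thresholds
  have t1 : 100 * uu i ≤ n := by
    have : 100 * uu i ≤ C₀ * uu i ^ 2 := by
      have a1 : 100 * uu i ≤ 100 * uu i ^ 2 := by linarith
      have a2 : 100 * uu i ^ 2 ≤ C₀ * uu i ^ 2 := mul_le_mul_of_nonneg_right (by linarith) (by positivity)
      linarith
    linarith
  have hpu : 1 ≤ pp i * et i * uu i := by
    -- `pp * et * et' * uu = 1`, `et' ≤ 1`
    have a1 := et_le (i + 1)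
    have a2 : pp i * et i * uu i * et (i + 1) ≤ pp i * et i * uu i * 1 := mul_le_mul_of_nonneg_left (by linarith) (by positivity)
    have a3 : pp i * et i * uu i * et (i + 1) = uu i * (pp i * et i * et (i + 1)) := by ring
    rw [a3, hum] at a2
    linarith
  have t2 : 100 * (200 + 20 * Real.log C) ≤ pp i * et i * n := by
    have a1 : C₀ * uu i ≤ n := le_trans (mul_le_mul_of_nonneg_left hu2 (by linarith)) hKn
    have a2 := mul_le_mul_of_nonneg_left a1 (show 0 ≤ pp i * et i by positivity)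
    have a3 : pp i * et i * (C₀ * uu i) = C₀ * (pp i * et i * uu i) := by ring
    have a4 : C₀ * 1 ≤ C₀ * (pp i * et i * uu i) := mul_le_mul_of_nonneg_left hpu (by linarith)
    have a5 : 100 * (200 + 20 * Real.log C) ≤ C₀ := by linarith
    linarith
  have t3 : 41 * G * uu i * (1 / pp i) * ((N : ℕ) : ℝ) ^ x ≤ n := by
    refine le_trans ?_ hKx
    rw [← hN]
    refine mul_le_mul_of_nonneg_right ?_ (Real.rpow_nonneg (Nat.cast_nonneg _) _)
    have a1 : 1 / pp i ≤ uu i := by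
      rw [div_le_iff₀ p1]
      have a2 : pp i * et i * uu i ≤ uu i * pp i := by
        have a3 := et_le i
        have a4 : pp i * uu i * et i ≤ pp i * uu i * 1 := mul_le_mul_of_nonneg_left (by linarith) (by positivity)
        linarith
      linarith
    have a2 : 41 * G * uu i * (1 / pp i) ≤ 41 * G * uu i * uu i := mul_le_mul_of_nonneg_left a1 (by positivity)
    have a3 : 41 * G * uu i * uu i = 41 * G * uu i ^ 2 := by ring
    have a4 : 41 * G * uu i ^ 2 ≤ C₀ * uu i ^ 2 := mul_le_mul_of_nonneg_right (by linarith) (by positivity)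
    linarith
  have hN1 : 1 ≤ N := by
    rw [hN]
    exact Nat.one_le_iff_ne_zero.2 (by positivity)
  have hM1 : 1 ≤ MM G i := by
    have a1 := MM_ge G i
    have a2 : 1 * 1 ≤ G * uu i := mul_le_mul hG hu (by norm_num) (by linarith)
    have a3 : (1 : ℝ) ≤ MM G i := by linarith
    exact_mod_cast a3
  obtain ⟨r₀, Na, P, β, hr₀, hS, hNa, hP, hint, hZ⟩ := hamp N (MM G i) α hN1 hM1 hα
  have hU0 : U 0 ≠ 0 := by
    intro h
    rw [h, abs_zero] at hU
    linarith [Real.exp_pos (-((L + 1) / 4000))]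
  have hamp' := amp (U0 := |U 0|) (n := n) (N := N) (i := i) hG hL1 hLL hx0 hx ha1 hU t3 hCA hZ
  obtain ⟨D', hD'⟩ : ∃ D' : Set (Ow d × Td d), D' = {p | sq α (frc γ e U p.1) p.2 ∈ EvS a L i n J y} := ⟨_, rfl⟩
  have hDm : MeasurableSet D' := by
    rw [hD']
    exact meas_sq he (meas_EvS a L (by linarith) i n J y)
  obtain ⟨Q, hQ⟩ : ∃ Q : ℝ, Q = Real.exp (pp i * et i / 10 * N * L) := ⟨_, rfl⟩
  have hQ1 : 1 ≤ Q := by
    rw [hQ]
    exact Real.one_le_exp (by positivity)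
  have hlQ : Real.log Q = pp i * et i / 10 * N * L := by rw [hQ, Real.log_exp]
  obtain ⟨y', hy'⟩ : ∃ y' : ℝ, y' = et i * N * L + y := ⟨_, rfl⟩
  have hyy : et i / 2 * N * L ≤ y' := by
    rw [← hN] at hy
    rw [hy']
    linarith
  have hy0 : 0 ≤ y' := le_trans (by positivity) hyy
  obtain ⟨X, hX⟩ : ∃ X : ℝ, X = Q * (4 / (Real.exp (-(2 * pp (i + 1) * N * L)) * Real.exp (-(pp (i + 1) * N * L)) ^ 2)) *
      Real.exp (-(pp i * y')) * (C * (|a| + 1) ^ 26 * (C / Real.exp (-(pp i * n * L))) ^ (12 * pp i)) ^ J := ⟨_, rfl⟩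
  have ha3 : |a| + 1 ≤ Real.exp (L + 2) := by
    have a1 : Real.exp (L + 2) = Real.exp (L + 1) * Real.exp 1 := by
      rw [← Real.exp_add]
      congr 1
      ring
    have a2 : (2 : ℝ) ≤ Real.exp 1 := by linarith [Real.exp_one_gt_d9]
    have a3 : (1 : ℝ) ≤ Real.exp (L + 1) := Real.one_le_exp (by linarith)
    have a4 := mul_le_mul_of_nonneg_left a2 (Real.exp_pos (L + 1)).le
    rw [a1]
    linarith
  have hX1 : X ≤ 1 := by
    have h := key (y' := y') (N := N) hC p1 (pp_le i) p2 (pp_et i) hL1 ha3 hJ hN t2 hyy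
    rw [hX, hQ, pp_succ]
    exact h
  have hX0 : 0 ≤ X := by
    rw [hX]
    have : 0 ≤ (C / Real.exp (-(pp i * n * L))) ^ (12 * pp i) :=
      Real.rpow_nonneg (div_nonneg (by linarith) (Real.exp_pos _).le) _
    positivity
  have hBs : EvS a L i n J y = Bs a (Real.exp (-(pp i * n * L))) (Real.exp (-(2 * pp i * n * L))) (2 * n * L)
      (Real.exp (-(pp (i + 1) * N * L))) (Real.exp (-(2 * pp (i + 1) * N * L))) (2 * N * L) n J y' := by
    unfold EvS Bs Rl
    rw [hy', hN]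
    ext b
    show (_ : ℝ) < _ ↔ (_ : ℝ) < _
    rw [sub_sub]
  have hmain : ∀ θ : Td d, ∫⁻ w, ∏ l, (1 + ENNReal.ofReal Q * {w : Ow d | (w, θ + β l) ∈ D'}.indicator 1 w) ∂lawL d ≤
      (ENNReal.ofReal (Real.exp J * (1 + X))) ^ (MM G i) := by
    intro θ
    have hS2 : SepR α r₀ (J * (n + 5)) (MM G i) β := by
      rw [← hN]
      exact hS
    have hS' : SepR α r₀ (J * (n + 5)) (MM G i) (fun l => θ + β l) := by
      intro u v huv
      have h3 := hS2 u v huv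
      have h4 : dist (θ + β u.1 + (u.2 : ℕ) • α) (θ + β v.1 + (v.2 : ℕ) • α) =
          dist (β u.1 + (u.2 : ℕ) • α) (β v.1 + (v.2 : ℕ) • α) := by
        rw [add_assoc, add_assoc, dist_add_left]
      show r₀ ≤ dist (θ + β u.1 + (u.2 : ℕ) • α) (θ + β v.1 + (v.2 : ℕ) • α)
      rw [h4]
      exact h3
    have h3 := hE d γ k e U α r₀ a (Real.exp (-(pp i * n * L))) (Real.exp (-(2 * pp i * n * L))) (2 * n * L)
      (Real.exp (-(pp (i + 1) * N * L))) (Real.exp (-(2 * pp (i + 1) * N * L))) (2 * N * L) y' (pp i) Q n J (MM G i) Na P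
      (fun l => θ + β l) hγ he hU0 hr₀ hS' hNa hP (by rw [← hN]; exact hint) (le_trans (Real.one_le_exp (by linarith)) ha1)
      (Real.exp_pos _) (Real.exp_le_one_iff.2 (by
        have : 0 ≤ pp i * n * L := by positivity
        linarith)) (Real.exp_pos _) (Real.exp_le_one_iff.2 (by
        have : 0 ≤ pp (i + 1) * N * L := by positivity
        linarith)) (Real.exp_pos _) (Real.exp_pos _) p1 (by linarith [pp_le i]) (by positivity) (by
        have a1 : (J : ℝ) * n ≤ N := by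
          rw [hN]
          push_cast
          have : (0 : ℝ) ≤ J * 5 := by positivity
          linarith
        have a2 : (J : ℝ) * n * (2 * L) ≤ N * (2 * L) := mul_le_mul_of_nonneg_right a1 (by linarith)
        linarith) (le_of_eq (by congr 1; ring)) hy0 (by linarith) hamp'
    rw [← hX] at h3
    refine le_trans (le_of_eq ?_) h3
    refine lintegral_congr fun w => Finset.prod_congr rfl fun l _ => ?_
    rw [← hBs]
    congr 2
    by_cases hm : sq α (frc γ e U w) (θ + β l) ∈ EvS a L i n J y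
    · rw [indicator_of_mem hm, indicator_of_mem (show w ∈ {w : Ow d | (w, θ + β l) ∈ D'} by rw [hD']; exact hm)]
      rfl
    · rw [indicator_of_notMem hm, indicator_of_notMem (show w ∉ {w : Ow d | (w, θ + β l) ∈ D'} by rw [hD']; exact hm)]
  have hcc := Pool.Agent.Helper33.AF.conc hDm hQ1 hmain (et (i + 1))
  have hfin := fin (L := L) (n := n) (J := J) (N := N) (i := i) hG hL1 hJ hN t1 hX0 hX1
  rw [hD'] at hcc
  refine hcc.trans ?_
  rw [← ENNReal.ofReal_pow (by positivity), ← ENNReal.ofReal_mul (by positivity), hlQ, ← hN]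
  exact ENNReal.ofReal_le_ofReal hfin

end Pool.Agent.Helper18.AF
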