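import Pool.Agent.Helper18.AF.LevS
import Pool.Agent.Helper46.AF.LevExpFin

/-!
# AF, block LPS
-/

set_option autoImplicit false
open MeasureTheory Real Set Filter Topology
open scoped ENNReal

namespace Pool.Agent.Helper18.AF

open Pool.Agent.Helper95.AF
open Pool.Agent.Helper46.QP (TT Td)
open Pool.Agent.Helper82.AN (Ik Ow lawL sq SepR)

variable {d : ℕ}

theorem lev_probS {γ τ x : ℝ} (hd : 0 < d) (hγ : 0 < γ) (h1 : 1 / d ≤ τ) (h2 : τ * γ < x) (hx : x < 1) (G : ℝ) (hG : 1 ≤ G) :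
    ∃ (c : ℝ) (K : ℕ → ℝ), (∀ i : ℕ, K i ≤ Real.exp (c * ((i : ℝ) + 1) ^ 2)) ∧
      ∀ D : ℝ, 0 < D → ∃ L₀ : ℝ, 1 ≤ L₀ ∧ ∀ L : ℝ, L₀ ≤ L → ∀ (i n J : ℕ), 1 ≤ J → K i ≤ n →
      K i * ((J * (n + 5) : ℕ) : ℝ) ^ x ≤ n →
      ∀ (k : ℕ) (e : Fin k → Td d → ℝ) (U : Fin (k + 1) → ℝ) (a : ℝ) (α : Td d) (y : ℝ), (∀ i, Continuous (e i)) →
        Real.exp L ≤ |a| → |a| ≤ Real.exp (L + 1) → Real.exp (-((L + 1) / 4000)) ≤ |U 0| → DC D τ α →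
        -(et i / 2 * (J * (n + 5) : ℕ) * L) ≤ y →
        lawL d {w | et (i + 1) ≤ volume.real {θ : Td d | sq α (frc γ e U w) θ ∈ EvS a L i n J y}} ≤
          ENNReal.ofReal (Real.exp (-(G * (J * (n + 5) : ℕ) * L))) :=
  lev_probS_of Pool.Agent.Helper46.AF.lev_exp hd hγ h1 h2 hx G hG

end Pool.Agent.Helper18.AF
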