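import Pool.Agent.Helper95.AF.Defs

/-!
# AF, block LPS: the numbers
-/

set_option autoImplicit false
open MeasureTheory Real Set Filter Topology

namespace Pool.Agent.Helper18.AF

open Pool.Agent.Helper95.AF (et pp)

/-! ### the sequences `et`, `pp` -/

theorem et_pos (i : ℕ) : 0 < et i := by
  unfold et
  positivity

theorem et_le (i : ℕ) : et i ≤ 1 / 200 := by
  unfold et
  have h : (1 : ℝ) ≤ 2 ^ i := one_le_pow₀ (by norm_num)
  exact one_div_le_one_div_of_le (by norm_num) (by linarith)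

theorem et_succ (i : ℕ) : et (i + 1) = et i / 2 := by
  unfold et
  rw [pow_succ]
  field_simp

theorem pp_pos (i : ℕ) : 0 < pp i := by
  induction i with
  | zero =>
    unfold pp
    norm_num
  | succ i ih =>
    have h := et_pos i
    unfold pp
    positivity

theorem pp_succ (i : ℕ) : pp (i + 1) = pp i * et i / 16 := rfl

theorem pp_le (i : ℕ) : pp i ≤ 1 / 20000 := by
  induction i with
  | zero =>
    unfold pp
    norm_num
  | succ i ih =>
    rw [pp_succ]
    have h1 := et_le i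
    have h2 := et_pos i
    have h3 := pp_pos i
    have h4 : pp i * et i ≤ 1 / 20000 * 1 := mul_le_mul ih (by linarith) h2.le (by norm_num)
    linarith

/-- `12 pp i ≤ (3 / 25) et i` -/
theorem pp_et (i : ℕ) : 12 * pp i ≤ 3 / 25 * et i := by
  induction i with
  | zero =>
    unfold pp et
    norm_num
  | succ i ih =>
    rw [pp_succ, et_succ]
    have h1 := et_le i
    have h2 := et_pos i
    have h3 := pp_pos i
    have h4 := pp_le i
    have h5 : pp i * et i ≤ 1 / 20000 * et i := mul_le_mul_of_nonneg_right h4 h2.le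
    linarith

/-- the size of the thresholds -/
noncomputable def uu (i : ℕ) : ℝ := 1 / (pp i * et i * et (i + 1))

theorem uu_pos (i : ℕ) : 0 < uu i := by
  unfold uu
  have h1 := pp_pos i
  have h2 := et_pos i
  have h3 := et_pos (i + 1)
  positivity

theorem uu_mul (i : ℕ) : uu i * (pp i * et i * et (i + 1)) = 1 := by
  unfold uu
  have h1 := pp_pos i
  have h2 := et_pos i
  have h3 := et_pos (i + 1)
  rw [one_div, inv_mul_cancel₀ (by positivity)]

theorem one_le_uu (i : ℕ) : 1 ≤ uu i := by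
  have h0 := uu_pos i
  have h1 := uu_mul i
  have h2 : pp i * et i * et (i + 1) ≤ 1 := by
    have a1 := pp_le i
    have a2 := et_le i
    have a3 := et_le (i + 1)
    have b1 := pp_pos i
    have b2 := et_pos i
    have b3 := et_pos (i + 1)
    have c1 : pp i * et i ≤ 1 * 1 := mul_le_mul (by linarith) (by linarith) b2.le (by norm_num)
    have c2 : pp i * et i * et (i + 1) ≤ 1 * 1 := mul_le_mul (by linarith) (by linarith) b3.le (by norm_num)
    linarith
  have h3 := mul_le_mul_of_nonneg_left h2 h0.le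
  linarith

theorem inv_pp (i : ℕ) : 1 / pp i ≤ Real.exp (10 * ((i : ℝ) + 1) ^ 2) := by
  induction i with
  | zero =>
    have h : (1 : ℝ) / pp 0 = 20000 := by
      unfold pp
      norm_num
    rw [h]
    have h1 := Real.exp_one_gt_d9
    have h2 : Real.exp (10 * (((0 : ℕ) : ℝ) + 1) ^ 2) = Real.exp 1 ^ 10 := by
      rw [← Real.exp_nat_mul]
      congr 1
      push_cast
      ring
    rw [h2]
    have h3 : (2.7182 : ℝ) ^ 10 ≤ Real.exp 1 ^ 10 := pow_le_pow_left₀ (by norm_num) (by linarith) 10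
    refine le_trans ?_ h3
    norm_num
  | succ i ih =>
    rw [pp_succ]
    have h1 := pp_pos i
    have h2 := et_pos i
    have h3 : 1 / (pp i * et i / 16) = 1 / pp i * (3200 * 2 ^ i) := by
      unfold et
      field_simp
      norm_num
    rw [h3]
    have h4 : (3200 : ℝ) ≤ Real.exp 9 := by
      have a1 := Real.exp_one_gt_d9
      have a2 : Real.exp 9 = Real.exp 1 ^ 9 := by
        rw [← Real.exp_nat_mul]
        norm_num
      rw [a2]
      have a3 : (2.7182 : ℝ) ^ 9 ≤ Real.exp 1 ^ 9 := pow_le_pow_left₀ (by norm_num) (by linarith) 9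
      refine le_trans ?_ a3
      norm_num
    have h5 : (2 : ℝ) ^ i ≤ Real.exp i := by
      have a1 : (2 : ℝ) ≤ Real.exp 1 := by linarith [Real.exp_one_gt_d9]
      calc (2 : ℝ) ^ i ≤ Real.exp 1 ^ i := pow_le_pow_left₀ (by norm_num) a1 i
        _ = Real.exp i := by
          rw [← Real.exp_nat_mul]
          simp
    calc 1 / pp i * (3200 * 2 ^ i) ≤ Real.exp (10 * ((i : ℝ) + 1) ^ 2) * (Real.exp 9 * Real.exp i) := by gcongr
      _ = Real.exp (10 * ((i : ℝ) + 1) ^ 2 + (9 + i)) := by rw [← Real.exp_add, ← Real.exp_add]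
      _ ≤ Real.exp (10 * (((i + 1 : ℕ) : ℝ) + 1) ^ 2) := by
        refine Real.exp_le_exp.2 ?_
        push_cast
        have : (0 : ℝ) ≤ i := Nat.cast_nonneg i
        linarith [sq_nonneg (i : ℝ)]

theorem inv_et (i : ℕ) : 1 / et i ≤ Real.exp (6 * ((i : ℝ) + 1) ^ 2) := by
  have h : 1 / et i = 200 * 2 ^ i := by
    unfold et
    rw [one_div_one_div]
  rw [h]
  have h4 : (200 : ℝ) ≤ Real.exp 6 := by
    have a1 := Real.exp_one_gt_d9
    have a2 : Real.exp 6 = Real.exp 1 ^ 6 := by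
      rw [← Real.exp_nat_mul]
      norm_num
    rw [a2]
    have a3 : (2.7182 : ℝ) ^ 6 ≤ Real.exp 1 ^ 6 := pow_le_pow_left₀ (by norm_num) (by linarith) 6
    refine le_trans ?_ a3
    norm_num
  have h5 : (2 : ℝ) ^ i ≤ Real.exp i := by
    have a1 : (2 : ℝ) ≤ Real.exp 1 := by linarith [Real.exp_one_gt_d9]
    calc (2 : ℝ) ^ i ≤ Real.exp 1 ^ i := pow_le_pow_left₀ (by norm_num) a1 i
      _ = Real.exp i := by
        rw [← Real.exp_nat_mul]
        simp
  calc (200 : ℝ) * 2 ^ i ≤ Real.exp 6 * Real.exp i := by gcongr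
    _ = Real.exp (6 + i) := by rw [← Real.exp_add]
    _ ≤ Real.exp (6 * ((i : ℝ) + 1) ^ 2) := by
      refine Real.exp_le_exp.2 ?_
      have : (0 : ℝ) ≤ i := Nat.cast_nonneg i
      nlinarith

theorem uu_le (i : ℕ) : uu i ≤ Real.exp (40 * ((i : ℝ) + 1) ^ 2) := by
  have h1 := inv_pp i
  have h2 := inv_et i
  have h3 : 1 / et (i + 1) ≤ 2 * Real.exp (6 * ((i : ℝ) + 1) ^ 2) := by
    rw [et_succ]
    have a1 := et_pos i
    have : 1 / (et i / 2) = 2 * (1 / et i) := by field_simp
    rw [this]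
    linarith
  have h4 : uu i = 1 / pp i * (1 / et i) * (1 / et (i + 1)) := by
    unfold uu
    rw [one_div_mul_one_div, one_div_mul_one_div]
  rw [h4]
  have p1 := pp_pos i
  have p2 := et_pos i
  have p3 := et_pos (i + 1)
  have h5 : (2 : ℝ) ≤ Real.exp (1 * ((i : ℝ) + 1) ^ 2) := by
    have a1 : (2 : ℝ) ≤ Real.exp 1 := by linarith [Real.exp_one_gt_d9]
    refine a1.trans (Real.exp_le_exp.2 ?_)
    have : (0 : ℝ) ≤ i := Nat.cast_nonneg i
    nlinarith
  calc 1 / pp i * (1 / et i) * (1 / et (i + 1)) ≤ Real.exp (10 * ((i : ℝ) + 1) ^ 2) * Real.exp (6 * ((i : ℝ) + 1) ^ 2) *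
        (Real.exp (1 * ((i : ℝ) + 1) ^ 2) * Real.exp (6 * ((i : ℝ) + 1) ^ 2)) := by
        have h6 : 1 / et (i + 1) ≤ Real.exp (1 * ((i : ℝ) + 1) ^ 2) * Real.exp (6 * ((i : ℝ) + 1) ^ 2) :=
          h3.trans (mul_le_mul_of_nonneg_right h5 (Real.exp_pos _).le)
        gcongr
    _ = Real.exp (10 * ((i : ℝ) + 1) ^ 2 + 6 * ((i : ℝ) + 1) ^ 2 + (1 * ((i : ℝ) + 1) ^ 2 + 6 * ((i : ℝ) + 1) ^ 2)) := by
      rw [Real.exp_add, Real.exp_add, Real.exp_add]
    _ ≤ _ := by
      refine Real.exp_le_exp.2 ?_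
      have := sq_nonneg ((i : ℝ) + 1)
      linarith

/-! ### the expectation -/

/-- the number of translates -/
noncomputable def MM (G : ℝ) (i : ℕ) : ℕ := ⌈40 * G * uu i⌉₊

theorem MM_ge (G : ℝ) (i : ℕ) : 40 * G * uu i ≤ MM G i := Nat.le_ceil _

theorem MM_le {G : ℝ} (hG : 1 ≤ G) (i : ℕ) : (MM G i : ℝ) ≤ 41 * G * uu i := by
  have h := one_le_uu i
  have h1 : 0 ≤ 40 * G * uu i := by positivity
  have h2 := (Nat.ceil_lt_add_one h1).le
  have h3 : 1 * 1 ≤ G * uu i := mul_le_mul hG h (by norm_num) (by linarith)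
  unfold MM
  linarith

/-- the main inequality -/
theorem key {C L a p e y' : ℝ} {n J N : ℕ} (hC : 1 ≤ C) (hp : 0 < p) (hp1 : p ≤ 1 / 20000) (he : 0 < e)
    (h12 : 12 * p ≤ 3 / 25 * e) (hL : 1 ≤ L) (ha : |a| + 1 ≤ Real.exp (L + 2)) (hJ : 1 ≤ J) (hN : N = J * (n + 5))
    (hn : 100 * (200 + 20 * Real.log C) ≤ p * e * n) (hy : e / 2 * N * L ≤ y') :
    Real.exp (p * e / 10 * N * L) * (4 / (Real.exp (-(2 * (p * e / 16) * N * L)) * Real.exp (-(p * e / 16 * N * L)) ^ 2)) *
      Real.exp (-(p * y')) * (C * (|a| + 1) ^ 26 * (C / Real.exp (-(p * n * L))) ^ (12 * p)) ^ J ≤ 1 := by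
  have hC0 : 0 < C := by linarith
  have hlC : 0 ≤ Real.log C := Real.log_nonneg hC
  have hJr : (1 : ℝ) ≤ J := by exact_mod_cast hJ
  have hNr : (N : ℝ) = J * (n + 5) := by
    rw [hN]
    push_cast
    ring
  have hn0 : (0 : ℝ) ≤ n := Nat.cast_nonneg n
  have hJn : (J : ℝ) * n ≤ N := by
    rw [hNr]
    have : (0 : ℝ) ≤ J * 5 := by positivity
    linarith
  have hN0 : (0 : ℝ) ≤ N := Nat.cast_nonneg N
  have hnN : (n : ℝ) ≤ N := by
    have h1 : (1 : ℝ) * n ≤ J * n := mul_le_mul_of_nonneg_right hJr hn0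
    linarith
  -- exponentials
  have e1 : 4 / (Real.exp (-(2 * (p * e / 16) * N * L)) * Real.exp (-(p * e / 16 * N * L)) ^ 2) =
      4 * Real.exp (p * e / 4 * N * L) := by
    rw [← Real.exp_nat_mul, ← Real.exp_add, div_eq_mul_inv, ← Real.exp_neg]
    congr 2
    push_cast
    ring
  have e2 : (C / Real.exp (-(p * n * L))) ^ (12 * p) = Real.exp (12 * p * (Real.log C + p * n * L)) := by
    rw [Real.rpow_def_of_pos (div_pos hC0 (Real.exp_pos _)), Real.log_div hC0.ne' (Real.exp_pos _).ne', Real.log_exp]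
    congr 1
    ring
  have e3 : C * (|a| + 1) ^ 26 * (C / Real.exp (-(p * n * L))) ^ (12 * p) ≤
      Real.exp (Real.log C + 26 * (L + 2) + 12 * p * (Real.log C + p * n * L)) := by
    rw [e2, Real.exp_add, Real.exp_add, Real.exp_log hC0]
    have h1 : (|a| + 1) ^ 26 ≤ Real.exp (26 * (L + 2)) := by
      rw [show (26 : ℝ) * (L + 2) = ((26 : ℕ) : ℝ) * (L + 2) by norm_num, Real.exp_nat_mul]
      exact pow_le_pow_left₀ (by positivity) ha 26
    gcongr
  have e4 : (C * (|a| + 1) ^ 26 * (C / Real.exp (-(p * n * L))) ^ (12 * p)) ^ J ≤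
      Real.exp (J * (Real.log C + 26 * (L + 2) + 12 * p * (Real.log C + p * n * L))) := by
    rw [Real.exp_nat_mul]
    refine pow_le_pow_left₀ ?_ e3 J
    have : 0 ≤ (C / Real.exp (-(p * n * L))) ^ (12 * p) := Real.rpow_nonneg (div_nonneg hC0.le (Real.exp_pos _).le) _
    positivity
  have e5 : (4 : ℝ) ≤ Real.exp 2 := by
    have a1 := Real.exp_one_gt_d9
    have a2 : Real.exp 2 = Real.exp 1 ^ 2 := by
      rw [← Real.exp_nat_mul]
      norm_num
    rw [a2]
    have a3 : (2.7182 : ℝ) ^ 2 ≤ Real.exp 1 ^ 2 := pow_le_pow_left₀ (by norm_num) (by linarith) 2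
    refine le_trans ?_ a3
    norm_num
  rw [e1]
  calc Real.exp (p * e / 10 * N * L) * (4 * Real.exp (p * e / 4 * N * L)) * Real.exp (-(p * y')) *
        (C * (|a| + 1) ^ 26 * (C / Real.exp (-(p * n * L))) ^ (12 * p)) ^ J
      ≤ Real.exp (p * e / 10 * N * L) * (Real.exp 2 * Real.exp (p * e / 4 * N * L)) * Real.exp (-(p * y')) *
        Real.exp (J * (Real.log C + 26 * (L + 2) + 12 * p * (Real.log C + p * n * L))) := by
        have : 0 ≤ (C / Real.exp (-(p * n * L))) ^ (12 * p) := Real.rpow_nonneg (div_nonneg hC0.le (Real.exp_pos _).le) _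
        gcongr
    _ = Real.exp (p * e / 10 * N * L + (2 + p * e / 4 * N * L) + -(p * y') +
        J * (Real.log C + 26 * (L + 2) + 12 * p * (Real.log C + p * n * L))) := by
        rw [Real.exp_add, Real.exp_add, Real.exp_add, Real.exp_add 2]
    _ ≤ Real.exp 0 := by
      refine Real.exp_le_exp.2 ?_
      obtain ⟨W, hW⟩ : ∃ W : ℝ, W = p * e * (N * L) := ⟨_, rfl⟩
      have hNL : (n : ℝ) * 1 ≤ N * L := mul_le_mul hnN hL (by norm_num) hN0
      -- the constants are small
      have hpe : 0 < p * e := by positivity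
      have w1 : 20000 ≤ W := by
        rw [hW]
        have h1 : p * e * (n * 1) ≤ p * e * (N * L) := mul_le_mul_of_nonneg_left hNL hpe.le
        linarith
      have w2 : J * L * (100 * (200 + 20 * Real.log C)) ≤ W := by
        rw [hW]
        have h1 : J * L * (100 * (200 + 20 * Real.log C)) ≤ J * L * (p * e * n) :=
          mul_le_mul_of_nonneg_left hn (by positivity)
        have h2 : p * e * L * (J * n) ≤ p * e * L * N := mul_le_mul_of_nonneg_left hJn (by positivity)
        linarith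
      have w3 : p * y' ≥ W / 2 := by
        rw [hW]
        have h1 := mul_le_mul_of_nonneg_left hy hp.le
        linarith
      have w4 : J * (12 * p * (p * n * L)) ≤ 3 / 25 * W := by
        rw [hW]
        have h1 : 12 * p * (p * L * (J * n)) ≤ 12 * p * (p * L * N) := by
          refine mul_le_mul_of_nonneg_left (mul_le_mul_of_nonneg_left hJn (by positivity)) (by positivity)
        have h2 : 12 * p * (p * L * N) ≤ 3 / 25 * e * (p * L * N) := mul_le_mul_of_nonneg_right h12 (by positivity)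
        linarith
      have w5 : J * (Real.log C + 26 * (L + 2) + 12 * p * Real.log C) ≤ J * L * (78 + 2 * Real.log C) := by
        have h1 : 12 * p * Real.log C ≤ 1 * Real.log C := mul_le_mul_of_nonneg_right (by linarith) hlC
        have h2 : 1 * Real.log C ≤ L * Real.log C := mul_le_mul_of_nonneg_right hL hlC
        have h3 : Real.log C + 26 * (L + 2) + 12 * p * Real.log C ≤ L * (78 + 2 * Real.log C) := by linarith
        have h4 := mul_le_mul_of_nonneg_left h3 (show (0 : ℝ) ≤ J by positivity)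
        linarith
      have w6 : J * L * (78 + 2 * Real.log C) ≤ W / 100 := by
        have h1 : 0 ≤ J * L * Real.log C := by positivity
        have h2 : 0 ≤ J * L := by positivity
        linarith
      have w7 : p * e / 10 * N * L = W / 10 := by rw [hW]; ring
      have w8 : p * e / 4 * N * L = W / 4 := by rw [hW]; ring
      rw [w7, w8]
      linarith
    _ = 1 := Real.exp_zero

/-- the final estimate -/
theorem fin {G L X : ℝ} {i n J N : ℕ} (hG : 1 ≤ G) (hL : 1 ≤ L) (hJ : 1 ≤ J) (hN : N = J * (n + 5))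
    (hn : 100 * uu i ≤ n) (hX0 : 0 ≤ X) (hX : X ≤ 1) :
    (Real.exp J * (1 + X)) ^ MM G i *
      Real.exp (-(MM G i * et (i + 1) * (pp i * et i / 10 * N * L))) ≤ Real.exp (-(G * N * L)) := by
  have hJr : (1 : ℝ) ≤ J := by exact_mod_cast hJ
  have hNr : (N : ℝ) = J * (n + 5) := by
    rw [hN]
    push_cast
    ring
  have hn0 : (0 : ℝ) ≤ n := Nat.cast_nonneg n
  have hJn : (J : ℝ) * n ≤ N := by
    rw [hNr]
    have : (0 : ℝ) ≤ J * 5 := by positivity
    linarith
  have hN0 : (0 : ℝ) ≤ N := Nat.cast_nonneg N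
  have hu := uu_mul i
  have hu0 := uu_pos i
  have p1 := pp_pos i
  have p2 := et_pos i
  have p3 := et_pos (i + 1)
  obtain ⟨v, hv⟩ : ∃ v : ℝ, v = pp i * et i * et (i + 1) := ⟨_, rfl⟩
  rw [← hv] at hu
  have hv0 : 0 < v := by
    rw [hv]
    positivity
  have h1 : Real.exp J * (1 + X) ≤ Real.exp (2 * J) := by
    have h2 : 1 + X ≤ Real.exp J := by
      have := Real.add_one_le_exp (J : ℝ)
      linarith
    calc Real.exp J * (1 + X) ≤ Real.exp J * Real.exp J := mul_le_mul_of_nonneg_left h2 (Real.exp_pos _).le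
      _ = Real.exp (2 * J) := by
        rw [← Real.exp_add]
        congr 1
        ring
  have h2 : (Real.exp J * (1 + X)) ^ MM G i ≤ Real.exp (MM G i * (2 * J)) := by
    rw [Real.exp_nat_mul]
    exact pow_le_pow_left₀ (by positivity) h1 _
  calc (Real.exp J * (1 + X)) ^ MM G i * Real.exp (-(MM G i * et (i + 1) * (pp i * et i / 10 * N * L)))
      ≤ Real.exp (MM G i * (2 * J)) * Real.exp (-(MM G i * et (i + 1) * (pp i * et i / 10 * N * L))) :=
        mul_le_mul_of_nonneg_right h2 (Real.exp_pos _).le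
    _ = Real.exp (MM G i * (2 * J) + -(MM G i * et (i + 1) * (pp i * et i / 10 * N * L))) := by rw [Real.exp_add]
    _ ≤ Real.exp (-(G * N * L)) := by
      refine Real.exp_le_exp.2 ?_
      have hMM := MM_ge G i
      have hM0 : (0 : ℝ) ≤ MM G i := Nat.cast_nonneg _
      -- `2 J ≤ v N L / 50`
      have h3 : 2 * J ≤ v * (N * L) / 50 := by
        have h4 : J * 100 * uu i ≤ J * n := by
          have := mul_le_mul_of_nonneg_left hn (show (0 : ℝ) ≤ J by positivity)
          linarith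
        have h5 : (N : ℝ) * 1 ≤ N * L := mul_le_mul_of_nonneg_left hL hN0
        have h6 : J * 100 * uu i ≤ N * L := by linarith
        have h7 := mul_le_mul_of_nonneg_left h6 hv0.le
        have h8 : v * (J * 100 * uu i) = J * 100 * (uu i * v) := by ring
        rw [h8, hu] at h7
        linarith
      have h4 : MM G i * et (i + 1) * (pp i * et i / 10 * N * L) = MM G i * (v * (N * L) / 10) := by
        rw [hv]
        ring
      rw [h4]
      have h5 : (MM G i : ℝ) * (2 * J) ≤ MM G i * (v * (N * L) / 50) := mul_le_mul_of_nonneg_left h3 hM0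
      have h6 : 40 * G * uu i * (v * (N * L) / 20) ≤ MM G i * (v * (N * L) / 20) :=
        mul_le_mul_of_nonneg_right hMM (by positivity)
      have h7 : 40 * G * uu i * (v * (N * L) / 20) = 2 * (G * (N * L)) * (uu i * v) := by ring
      rw [h7, hu] at h6
      have h8 : 0 ≤ G * (N * L) := by positivity
      have h9 : 0 ≤ MM G i * (v * (N * L)) := by positivity
      linarith

/-- the size of the noise -/
theorem amp {G L a C x U0 Z : ℝ} {i n N : ℕ} (hG : 1 ≤ G) (hL : 1 ≤ L) (hLC : C ≤ L) (hx0 : 0 < x) (hx1 : x < 1)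
    (ha : Real.exp L ≤ |a|) (hU : Real.exp (-((L + 1) / 4000)) ≤ U0)
    (hn : 41 * G * uu i * (1 / pp i) * (N : ℝ) ^ x ≤ n) (hC : 1 ≤ C)
    (hZ : Z ≤ C * ((MM G i * N : ℕ) : ℝ) ^ x) :
    Real.exp (-(pp i * n * L)) / (10 * (|a| + 1)) ^ 5 ≤ U0 * Real.exp (-Z) / 20 := by
  have p1 := pp_pos i
  have hu := one_le_uu i
  have h1 : Real.exp (-((L + 1) / 4000)) * Real.exp (-Z) / 20 ≤ U0 * Real.exp (-Z) / 20 := by
    have := mul_le_mul_of_nonneg_right hU (Real.exp_pos (-Z)).le
    linarith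
  refine le_trans ?_ h1
  have h2 : Real.exp (5 * L) * 100000 ≤ (10 * (|a| + 1)) ^ 5 := by
    have h3 : Real.exp L * 10 ≤ 10 * (|a| + 1) := by linarith
    have h4 := pow_le_pow_left₀ (by positivity) h3 5
    have h5 : (Real.exp L * 10) ^ 5 = Real.exp (5 * L) * 100000 := by
      rw [mul_pow, ← Real.exp_nat_mul]
      norm_num
    linarith
  have h3 : Real.exp (-(pp i * n * L)) / (10 * (|a| + 1)) ^ 5 ≤ Real.exp (-(pp i * n * L)) / (Real.exp (5 * L) * 100000) :=
    div_le_div_of_nonneg_left (Real.exp_pos _).le (by positivity) h2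
  refine h3.trans ?_
  rw [div_le_div_iff₀ (by positivity) (by norm_num), ← Real.exp_add]
  have h4 : Z ≤ pp i * n * L := by
    have m1 : ((MM G i * N : ℕ) : ℝ) ^ x ≤ MM G i * (N : ℝ) ^ x := by
      push_cast
      rw [Real.mul_rpow (Nat.cast_nonneg _) (Nat.cast_nonneg _)]
      refine mul_le_mul_of_nonneg_right ?_ (Real.rpow_nonneg (Nat.cast_nonneg _) _)
      have m2 : (1 : ℝ) ≤ MM G i := by
        have := MM_ge G i
        have h5 : 1 * 1 ≤ G * uu i := mul_le_mul hG hu (by norm_num) (by linarith)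
        linarith
      calc (MM G i : ℝ) ^ x ≤ (MM G i : ℝ) ^ (1 : ℝ) := Real.rpow_le_rpow_of_exponent_le m2 hx1.le
        _ = MM G i := Real.rpow_one _
    have m3 : (MM G i : ℝ) * (N : ℝ) ^ x ≤ 41 * G * uu i * (N : ℝ) ^ x :=
      mul_le_mul_of_nonneg_right (MM_le hG i) (Real.rpow_nonneg (Nat.cast_nonneg _) _)
    have m4 : 41 * G * uu i * (N : ℝ) ^ x ≤ pp i * n := by
      have := mul_le_mul_of_nonneg_left hn p1.le
      have m5 : pp i * (41 * G * uu i * (1 / pp i) * (N : ℝ) ^ x) = 41 * G * uu i * (N : ℝ) ^ x := by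
        field_simp
      linarith
    have m6 : C * ((MM G i * N : ℕ) : ℝ) ^ x ≤ C * (pp i * n) := mul_le_mul_of_nonneg_left (by linarith) (by linarith)
    have m7 : C * (pp i * n) ≤ L * (pp i * n) := mul_le_mul_of_nonneg_right hLC (by positivity)
    linarith
  have h5 : Real.exp (-(pp i * n * L)) * 20 ≤ Real.exp (-Z) * 20 :=
    mul_le_mul_of_nonneg_right (Real.exp_le_exp.2 (by linarith)) (by norm_num)
  refine h5.trans ?_
  rw [Real.exp_add]
  have h6 : 1 ≤ Real.exp (-((L + 1) / 4000)) * Real.exp (5 * L) := by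
    rw [← Real.exp_add]
    exact Real.one_le_exp (by linarith)
  have h7 := mul_le_mul_of_nonneg_left h6 (Real.exp_pos (-Z)).le
  have h8 := Real.exp_pos (-Z)
  linarith

/-- the thresholds -/
theorem thr (C₀ : ℝ) (hC₀ : 1 ≤ C₀) : ∃ c : ℝ, ∀ i : ℕ, C₀ * uu i ^ 2 ≤ Real.exp (c * ((i : ℝ) + 1) ^ 2) := by
  refine ⟨Real.log C₀ + 80, fun i => ?_⟩
  have h1 := uu_le i
  have h2 := uu_pos i
  have h3 : C₀ ≤ Real.exp (Real.log C₀ * ((i : ℝ) + 1) ^ 2) := by
    have h4 : Real.log C₀ * 1 ≤ Real.log C₀ * ((i : ℝ) + 1) ^ 2 := by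
      refine mul_le_mul_of_nonneg_left ?_ (Real.log_nonneg hC₀)
      have : (0 : ℝ) ≤ i := Nat.cast_nonneg i
      nlinarith
    calc C₀ = Real.exp (Real.log C₀ * 1) := by rw [mul_one, Real.exp_log (by linarith)]
      _ ≤ _ := Real.exp_le_exp.2 h4
  have h4 : uu i ^ 2 ≤ Real.exp (80 * ((i : ℝ) + 1) ^ 2) := by
    calc uu i ^ 2 ≤ Real.exp (40 * ((i : ℝ) + 1) ^ 2) ^ 2 := pow_le_pow_left₀ h2.le h1 2
      _ = Real.exp (80 * ((i : ℝ) + 1) ^ 2) := by
        rw [← Real.exp_nat_mul]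
        congr 1
        push_cast
        ring
  calc C₀ * uu i ^ 2 ≤ Real.exp (Real.log C₀ * ((i : ℝ) + 1) ^ 2) * Real.exp (80 * ((i : ℝ) + 1) ^ 2) :=
        mul_le_mul h3 h4 (by positivity) (Real.exp_pos _).le
    _ = _ := by
      rw [← Real.exp_add]
      congr 1
      ring

end Pool.Agent.Helper18.AF
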